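import Pool.Agent.helper57.PP.Spec

/-!
# Rows pp (MP_974a61_co), row SEP2: inner vertices of a segment cut off by a chord
-/

set_option autoImplicit false

namespace Pool.Agent.helper57.PP

open Finset

/-- the edges of the path at an inner vertex of the segment are the edges of the segment -/
private theorem SEP2_mem {W : Type} [DecidableEq W] {A1 : List W} {x : W} {M : List W} {y : W}
    {B : List W} (hnd : (A1 ++ x :: (M ++ y :: B)).Nodup) {v : W} (hv : v ∈ M) {e : Finset W}
    (hve : v ∈ e) :
    e ∈ pe (A1 ++ x :: (M ++ y :: B)) ↔ e ∈ insert {x, y} (pe (x :: (M ++ [y]))) := by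
  have h1 : v ∉ A1 ∧ v ≠ x ∧ v ≠ y ∧ v ∉ B := by
    simp only [List.nodup_append, List.nodup_cons, List.mem_cons, List.mem_append] at hnd
    grind
  have h2 : pe (A1 ++ x :: (M ++ y :: B)) =
      pe (A1 ++ [x]) ∪ (pe (x :: (M ++ [y])) ∪ pe (y :: B)) := by
    rw [pe_append]
    congr 1
    have := pe_append (x :: M) y B
    simpa using this
  rw [h2, mem_union, mem_union, mem_insert]
  constructor
  · rintro (h | h | h)
    · have := mem_of_mem_pe h hve
      simp only [List.mem_append, List.mem_singleton] at this
      tauto
    · exact Or.inr h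
    · have := mem_of_mem_pe h hve
      simp only [List.mem_cons] at this
      tauto
  · rintro (h | h)
    · rw [h, mem_insert, mem_singleton] at hve
      tauto
    · exact Or.inr (Or.inl h)

theorem SEP2 : SEP2_stmt := by
  intro W _ T R A a z bs ts A1 x M y B hD hS _ _ hAR hbdA v hv
  have hRT : R ⊆ T := hS.sub
  have hmem := fun (e : Finset W) (hve : v ∈ e) => SEP2_mem hS.nd hv hve (e := e)
  have hP : (pth a bs z).Nodup := by
    have := hD.nd
    unfold pth
    simp only [List.nodup_cons, List.nodup_append, List.mem_cons, List.mem_append,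
      List.not_mem_nil, not_false_eq_true, List.nodup_nil] at this ⊢
    grind
  -- parity facts
  have hA : ∀ e : Finset W, e.card = 2 → v ∈ e →
      (Odd (cof A e).card ↔ e ∈ pe (A1 ++ x :: (M ++ y :: B))) := by
    intro e he hve
    rw [hmem e hve, ← hbdA, mem_bd]
    tauto
  have hR : ∀ e : Finset W, e.card = 2 → (Odd (cof R e).card ↔
      ((e ∈ pe (pth a bs z) ∧ e ∉ pe (A1 ++ x :: (M ++ y :: B))) ∨
        (e ∈ pe (A1 ++ x :: (M ++ y :: B)) ∧ e ∉ pe (pth a bs z)))) := by
    intro e he
    rw [← mem_symmDiff, ← hS.bdR, mem_bd]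
    tauto
  have hT1 : ∀ e : Finset W, e ∈ pe (pth a bs z) → (cof T e).card = 1 := by
    intro e he
    have h1 : e ∈ bd T := by
      rw [hD.bdT, mem_union]
      exact Or.inl he
    rw [mem_bd] at h1
    have h2 := hD.le2 e h1.1
    have h3 := h1.2
    rw [Nat.odd_iff] at h3
    omega
  have hle : ∀ e : Finset W, (cof A e).card ≤ (cof R e).card ∧
      (cof R e).card ≤ (cof T e).card := fun e =>
    ⟨card_le_card (cof_mono hAR e), card_le_card (cof_mono hRT e)⟩
  -- no edge at `v` is both on the path and on the bottom path
  have hnb : ∀ e : Finset W, e.card = 2 → v ∈ e → e ∈ pe (A1 ++ x :: (M ++ y :: B)) →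
      e ∉ pe (pth a bs z) := by
    intro e he hve hC hPe
    have h1 := (hA e he hve).2 hC
    have h2 : ¬ Odd (cof R e).card := by
      rw [hR e he]
      tauto
    have h3 := hT1 e hPe
    have h4 := hle e
    rw [Nat.odd_iff] at h1 h2
    omega
  have hN : cof R {v} \ A = ∅ := by
    by_contra hne
    have hne' : (cof R {v} \ A).Nonempty := Finset.nonempty_iff_ne_empty.2 hne
    have hcofN : ∀ e : Finset W, v ∈ e → cof (cof R {v} \ A) e = cof R e \ cof A e := by
      intro e hve
      rw [cof_sdiff, cof_cof R hve]
    have key := hD.star v (cof R {v} \ A)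
      (fun t ht => cof_mono hRT {v} (mem_sdiff.1 ht).1) hne' (by
        intro e he hve
        rw [hcofN e hve]
        have h4 := hle e
        have h5 := hD.le2 e he
        by_cases hC : e ∈ pe (A1 ++ x :: (M ++ y :: B))
        · left
          have h1 := (hA e he hve).2 hC
          have h2 : Odd (cof R e).card := (hR e he).2 (Or.inr ⟨hC, hnb e he hve hC⟩)
          rw [Nat.odd_iff] at h1 h2
          have h3 : cof A e = cof R e :=
            Finset.eq_of_subset_of_card_le (cof_mono hAR e) (by omega)
          rw [h3, sdiff_self]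
          rfl
        · have h1 : ¬ Odd (cof A e).card := fun h => hC ((hA e he hve).1 h)
          by_cases hPe : e ∈ pe (pth a bs z)
          · have h3 := hT1 e hPe
            by_cases h6 : cof R e \ cof A e = ∅
            · exact Or.inl h6
            · right
              have h7 : 0 < (cof R e \ cof A e).card :=
                Finset.card_pos.2 (Finset.nonempty_iff_ne_empty.2 h6)
              exact Finset.eq_of_subset_of_card_le
                (sdiff_subset.trans (cof_mono hRT e)) (by omega)
          · have h2 : ¬ Odd (cof R e).card := by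
              rw [hR e he]
              tauto
            rw [Nat.odd_iff] at h1 h2
            by_cases h6 : (cof A e).card = 0
            · rw [Finset.card_eq_zero.1 h6, sdiff_empty]
              by_cases h7 : (cof R e).card = 0
              · exact Or.inl (Finset.card_eq_zero.1 h7)
              · right
                exact Finset.eq_of_subset_of_card_le (cof_mono hRT e) (by omega)
            · left
              have h3 : cof A e = cof R e :=
                Finset.eq_of_subset_of_card_le (cof_mono hAR e) (by omega)
              rw [h3, sdiff_self]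
              rfl)
    obtain ⟨e, he, hve⟩ := exists_pe_of_mem (a := x) (cs := M) (z := y) (v := v)
      (by unfold pth; simp [hv])
    have he2 : e ∈ bd A := by
      rw [hbdA, mem_insert]
      exact Or.inr he
    rw [mem_bd] at he2
    have h1 : (cof A e).Nonempty := by
      rw [← Finset.card_pos]
      exact he2.2.pos
    obtain ⟨t, ht⟩ := h1
    rw [mem_cof] at ht
    have h2 : t ∈ cof T {v} := mem_cof.2 ⟨hRT (hAR ht.1), by
      rw [singleton_subset_iff]
      exact ht.2 hve⟩
    rw [← key, mem_sdiff] at h2
    exact h2.2 ht.1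
  have hsub : cof R {v} ⊆ A := Finset.sdiff_eq_empty_iff_subset.1 hN
  refine ⟨?_, hsub⟩
  intro hvP
  obtain ⟨e, he, hve⟩ := exists_pe_of_mem hvP
  have he2 : e.card = 2 := card_of_mem_pe hP he
  have hC : e ∉ pe (A1 ++ x :: (M ++ y :: B)) := fun hC => hnb e he2 hve hC he
  have h1 : Odd (cof R e).card := (hR e he2).2 (Or.inl ⟨he, hC⟩)
  have h2 := hT1 e he
  have h3 : cof R e ⊆ cof A e := by
    intro t ht
    rw [mem_cof] at ht ⊢
    exact ⟨hsub (mem_cof.2 ⟨ht.1, by
      rw [singleton_subset_iff]
      exact ht.2 hve⟩), ht.2⟩
  have h4 := card_le_card h3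
  have h5 := hle e
  apply hC
  rw [← hA e he2 hve]
  rw [Nat.odd_iff] at h1 ⊢
  omega

end Pool.Agent.helper57.PP
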