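import Pool.Agent.helper36.PP.SpecM

/-!
# Project pp: (MP_70a088_an), module TRA
-/

set_option autoImplicit false

open Complex Metric Set Filter Topology MeasureTheory MPS MQ Pool.Agent.helper98.ILF

noncomputable section

namespace PPS

theorem TRA_diff (f : Polynomial ℂ) (m : ℕ) : Differentiable ℂ (it f m) := by
  induction m with
  | zero =>
    have : it f 0 = id := rfl
    rw [this]
    exact differentiable_id
  | succ n ih =>
    have : it f (n + 1) = it f n ∘ (fun w : ℂ => f.eval w) := by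
      unfold it
      rw [Function.iterate_succ]
    rw [this]
    exact ih.comp f.differentiable

theorem TRA_split (f : Polynomial ℂ) (k i j : ℕ) (z : ℂ) :
    it f (i + k * j) z = it f i ((it f k)^[j] z) := by
  unfold it
  rw [Function.iterate_add_apply, Function.iterate_mul]

theorem TRA : TRA_stmt := by
  rintro f p ⟨k, hk, hp, hd⟩
  obtain ⟨l, hl1, hl2⟩ := exists_between hd
  have hl0 : 0 ≤ l := (norm_nonneg _).trans hl1.le
  have hder : HasDerivAt (it f k) (deriv (it f k) p) p := (TRA_diff f k p).hasDerivAt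
  have h1 : ∀ᶠ z in 𝓝 p, ‖it f k z - p‖ ≤ l * ‖z - p‖ := by
    have h2 := (hasDerivAt_iff_isLittleO.mp hder).def (sub_pos.mpr hl1)
    filter_upwards [h2] with z hz
    rw [hp, smul_eq_mul] at hz
    calc ‖it f k z - p‖ = ‖(it f k z - p - (z - p) * deriv (it f k) p) +
          (z - p) * deriv (it f k) p‖ := by ring_nf
      _ ≤ ‖it f k z - p - (z - p) * deriv (it f k) p‖ + ‖(z - p) * deriv (it f k) p‖ :=
          norm_add_le _ _
      _ ≤ (l - ‖deriv (it f k) p‖) * ‖z - p‖ + ‖z - p‖ * ‖deriv (it f k) p‖ := by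
          rw [norm_mul]
          gcongr
      _ = l * ‖z - p‖ := by ring
  obtain ⟨d0, hd0, h3⟩ := Metric.eventually_nhds_iff.mp h1
  have h3' : ∀ z : ℂ, ‖z - p‖ < d0 → ‖it f k z - p‖ ≤ l * ‖z - p‖ := by
    intro z hz
    exact h3 (by rwa [dist_eq_norm])
  have h4 : ∀ j : ℕ, ∀ z : ℂ, ‖z - p‖ < d0 → ‖(it f k)^[j] z - p‖ ≤ l ^ j * ‖z - p‖ := by
    intro j
    induction j with
    | zero =>
      intro z _
      simp
    | succ n ih =>
      intro z hz
      have h5 := ih z hz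
      have h6 : ‖(it f k)^[n] z - p‖ < d0 := by
        refine lt_of_le_of_lt h5 ?_
        refine lt_of_le_of_lt ?_ hz
        have : l ^ n ≤ 1 := pow_le_one₀ hl0 hl2.le
        nlinarith [norm_nonneg (z - p)]
      rw [Function.iterate_succ_apply']
      calc ‖it f k ((it f k)^[n] z) - p‖ ≤ l * ‖(it f k)^[n] z - p‖ := h3' _ h6
        _ ≤ l * (l ^ n * ‖z - p‖) := mul_le_mul_of_nonneg_left h5 hl0
        _ = l ^ (n + 1) * ‖z - p‖ := by ring
  have hfix : ∀ j : ℕ, (it f k)^[j] p = p := fun j => Function.iterate_fixed hp j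
  have h5 : ∀ ε > (0 : ℝ), ∃ d > (0 : ℝ), ∀ w : ℂ, ‖w - p‖ < d → ∀ i < k,
      ‖it f i w - it f i p‖ < ε := by
    intro ε hε
    have h6 : ∀ᶠ w in 𝓝 p, ∀ i ∈ Finset.range k, ‖it f i w - it f i p‖ < ε := by
      rw [Filter.eventually_all_finset]
      intro i _
      have h7 : Tendsto (it f i) (𝓝 p) (𝓝 (it f i p)) := (TRA_diff f i).continuous.tendsto p
      have h8 := h7.eventually (Metric.ball_mem_nhds (it f i p) hε)
      filter_upwards [h8] with w hw
      rwa [dist_eq_norm] at hw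
    obtain ⟨d, hd, h9⟩ := Metric.eventually_nhds_iff.mp h6
    refine ⟨d, hd, ?_⟩
    intro w hw i hi
    exact h9 (by rwa [dist_eq_norm]) i (Finset.mem_range.mpr hi)
  have h6 : ∀ m : ℕ, ∀ z : ℂ, it f m z = it f (m % k) ((it f k)^[m / k] z) := by
    intro m z
    rw [← TRA_split, Nat.mod_add_div]
  constructor
  · intro ε hε
    obtain ⟨d, hd, h7⟩ := h5 ε hε
    refine ⟨min d d0, lt_min hd hd0, ?_⟩
    intro z hz m
    rw [h6 m z, h6 m p, hfix]
    refine h7 _ ?_ _ (Nat.mod_lt _ hk)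
    refine lt_of_le_of_lt (h4 _ z (lt_of_lt_of_le hz (min_le_right _ _))) ?_
    refine lt_of_le_of_lt ?_ (lt_of_lt_of_le hz (min_le_left _ _))
    have : l ^ (m / k) ≤ 1 := pow_le_one₀ hl0 hl2.le
    nlinarith [norm_nonneg (z - p)]
  · refine ⟨d0, hd0, ?_⟩
    intro ε hε
    obtain ⟨d, hd, h7⟩ := h5 ε hε
    have h8 : Tendsto (fun j : ℕ => l ^ j * d0) atTop (𝓝 (0 * d0)) :=
      (tendsto_pow_atTop_nhds_zero_of_lt_one hl0 hl2).mul_const d0
    rw [zero_mul] at h8
    obtain ⟨J, hJ⟩ := (h8.eventually (gt_mem_nhds hd)).exists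
    refine ⟨k * J, ?_⟩
    intro m hm z hz
    rw [h6 m z, h6 m p, hfix]
    refine h7 _ ?_ _ (Nat.mod_lt _ hk)
    have h9 : J ≤ m / k := by
      rw [Nat.le_div_iff_mul_le hk, mul_comm]
      exact hm
    calc ‖(it f k)^[m / k] z - p‖ ≤ l ^ (m / k) * ‖z - p‖ := h4 _ z hz
      _ ≤ l ^ J * d0 := by
          refine mul_le_mul (pow_le_pow_of_le_one hl0 hl2.le h9) hz.le (norm_nonneg _)
            (pow_nonneg hl0 _)
      _ < d := hJ

end PPS

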